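import Pool.Agent.H58.SF.Targets

/-!
# Additivity of the sums along walks for odd potentials
-/

namespace Pool.Agent.H18.SF

open Pool.Agent.H68.BP Pool.Agent.H58.SF

/-- changing a closed walk at non adjacent times -/
theorem walk_change {X : Type} (E : X → X → Prop) (W : X → X → ℤ)
    (hW : ∀ x y, W y x = -W x y)
    (hC : ∀ a b c d, E a b → E b c → E c d → E d a → W a b + W b c + W c d + W d a = 0)
    (x y : ℕ → X) (hx : ∀ k, E (x k) (x (k + 1))) (hy : ∀ k, E (y (k + 1)) (y k))
    (h0 : x 0 = y 0) (h2 : ∀ k, x k = y k ∨ x (k + 1) = y (k + 1)) :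
    ∀ m, x m = y m → ∑ k ∈ Finset.range m, W (x k) (x (k + 1)) =
      ∑ k ∈ Finset.range m, W (y k) (y (k + 1)) := by
  intro m
  induction m using Nat.strong_induction_on with
  | _ m ih =>
    intro hm
    match m with
    | 0 => rfl
    | 1 => simp [h0, hm]
    | m + 2 =>
      by_cases h1 : x (m + 1) = y (m + 1)
      · rw [Finset.sum_range_succ, Finset.sum_range_succ _ (m + 1), ih (m + 1) (by omega) h1, h1, hm]
      · have h3 : x m = y m := (h2 m).resolve_right h1
        rw [Finset.sum_range_succ, Finset.sum_range_succ, Finset.sum_range_succ _ (m + 1),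
          Finset.sum_range_succ _ m, ih m (by omega) h3]
        have e1 := hC (x m) (x (m + 1)) (x (m + 2)) (y (m + 1)) (hx m) (hx (m + 1))
          (by rw [hm]; exact hy (m + 1)) (by rw [h3]; exact hy m)
        have e2 := hW (x (m + 2)) (y (m + 1))
        have e3 := hW (y (m + 1)) (x m)
        rw [← h3, ← hm]
        change ∑ k ∈ Finset.range m, W (y k) (y (k + 1)) + W (x m) (x (m + 1)) +
          W (x (m + 1)) (x (m + 2)) = ∑ k ∈ Finset.range m, W (y k) (y (k + 1)) +
          W (x m) (y (m + 1)) + W (y (m + 1)) (x (m + 2))
        linarith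

section

variable (M : ℕ)

def Cc (k : ℕ) : ZMod M := (k : ZMod M)

def Tt (k : ℕ) : ZMod M := ((k % 2 : ℕ) : ZMod M)

def av (k : ℕ) : ZMod M := if k ≤ 2 * M then Cc M k else Tt M k

def bv (j k : ℕ) : ZMod M :=
  if k ≤ j then Cc M k else if k ≤ 2 * M + j then Cc M (j + (k - j) % 2) else Cc M k

theorem Cc_add (k : ℕ) : Cc M (2 * M + k) = Cc M k := by
  unfold Cc
  push_cast
  simp

theorem Cc_two : Cc M (2 * M) = Cc M 0 := by
  have := Cc_add M 0
  simpa using this

theorem Tt_add (k : ℕ) : Tt M (2 * M + k) = Tt M k := by
  unfold Tt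
  have : (2 * M + k) % 2 = k % 2 := by omega
  rw [this]

theorem Cc_mod (k : ℕ) : Cc M (k % 2) = Tt M k := rfl

theorem cyc_C (k : ℕ) : cyc M (Cc M k) (Cc M (k + 1)) := by
  left
  unfold Cc
  push_cast
  rfl

theorem cyc_symm {a b : ZMod M} (h : cyc M a b) : cyc M b a := h.symm

theorem cyc_T (k : ℕ) : cyc M (Tt M k) (Tt M (k + 1)) := by
  rcases Nat.mod_two_eq_zero_or_one k with h | h
  · left
    unfold Tt
    have h' : (k + 1) % 2 = 1 := by omega
    rw [h, h']
    push_cast
    ring
  · right
    unfold Tt
    have h' : (k + 1) % 2 = 0 := by omega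
    rw [h, h']
    push_cast
    ring

theorem cyc_a (k : ℕ) : cyc M (av M k) (av M (k + 1)) := by
  unfold av
  by_cases h1 : k + 1 ≤ 2 * M
  · rw [if_pos (by omega), if_pos h1]
    exact cyc_C M k
  · by_cases h2 : k ≤ 2 * M
    · have e : k = 2 * M := by omega
      rw [if_pos h2, if_neg h1, e, Cc_two]
      have h3 := cyc_T M (2 * M)
      have h4 : Tt M (2 * M) = Cc M 0 := by
        unfold Tt Cc
        congr 1
        omega
      rwa [h4] at h3
    · rw [if_neg h2, if_neg h1]
      exact cyc_T M k

theorem cyc_b (hM : 1 ≤ M) (j k : ℕ) : cyc M (bv M j k) (bv M j (k + 1)) := by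
  unfold bv
  by_cases h1 : k + 1 ≤ j
  · rw [if_pos (by omega), if_pos h1]
    exact cyc_C M k
  · rw [if_neg h1]
    by_cases h2 : k ≤ j
    · have e : k = j := by omega
      subst e
      rw [if_pos le_rfl, if_pos (by omega)]
      have : k + (k + 1 - k) % 2 = k + 1 := by omega
      rw [this]
      exact cyc_C M k
    · rw [if_neg h2]
      by_cases h3 : k + 1 ≤ 2 * M + j
      · rw [if_pos (by omega), if_pos h3]
        rcases Nat.mod_two_eq_zero_or_one (k - j) with h | h
        · have h' : (k + 1 - j) % 2 = 1 := by omega
          rw [h, h']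
          exact cyc_C M j
        · have h' : (k + 1 - j) % 2 = 0 := by omega
          rw [h, h']
          exact cyc_symm M (cyc_C M j)
      · rw [if_neg h3]
        by_cases h4 : k ≤ 2 * M + j
        · have e : k = 2 * M + j := by omega
          rw [if_pos h4]
          have h' : (k - j) % 2 = 0 := by omega
          rw [h', Nat.add_zero]
          have e1 : Cc M (k + 1) = Cc M (j + 1) := by
            rw [e, Nat.add_assoc, Cc_add]
          rw [e1]
          exact cyc_C M j
        · rw [if_neg h4]
          exact cyc_C M k

theorem bv_alt (j k : ℕ) :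
    bv M j k = bv M (j + 1) k ∨ bv M j (k + 1) = bv M (j + 1) (k + 1) := by
  -- equality at times whose difference with `j` is odd
  have key : ∀ k, (k ≤ j ∨ 2 * M + j < k ∨ (k - j) % 2 = 1) → bv M j k = bv M (j + 1) k := by
    intro k hk
    unfold bv
    by_cases h1 : k ≤ j
    · rw [if_pos h1, if_pos (by omega)]
    · rw [if_neg h1]
      by_cases h2 : k ≤ j + 1
      · have e : k = j + 1 := by omega
        rw [if_pos h2]
        by_cases h3 : k ≤ 2 * M + j
        · rw [if_pos h3]
          congr 1
          omega
        · rw [if_neg h3]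
      · rw [if_neg h2]
        by_cases h3 : k ≤ 2 * M + j
        · have h4 : (k - j) % 2 = 1 := by
            rcases hk with h | h | h
            · exact absurd h h1
            · omega
            · exact h
          rw [if_pos h3, if_pos (by omega)]
          congr 1
          omega
        · rw [if_neg h3]
          by_cases h5 : k ≤ 2 * M + (j + 1)
          · have e : k = 2 * M + (j + 1) := by omega
            rw [if_pos h5]
            have h6 : (k - (j + 1)) % 2 = 0 := by omega
            rw [h6, Nat.add_zero, e, Cc_add]
          · rw [if_neg h5]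
  by_cases h : k ≤ j ∨ 2 * M + j < k ∨ (k - j) % 2 = 1
  · left
    exact key k h
  · right
    apply key
    right
    right
    omega

end

open Classical in
noncomputable def uu (M : ℕ) {I : Type} (Z : Set I) (k : ℕ) : I → ZMod M :=
  fun i => if i ∈ Z then Cc M k else Tt M k

theorem uu_mem (M : ℕ) {I : Type} {Z : Set I} (k : ℕ) {i : I} (h : i ∈ Z) :
    uu M Z k i = Cc M k := by
  unfold uu
  rw [if_pos h]

theorem uu_not (M : ℕ) {I : Type} {Z : Set I} (k : ℕ) {i : I} (h : i ∉ Z) :
    uu M Z k i = Tt M k := by
  unfold uu
  rw [if_neg h]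

open Classical in
theorem ad_core (M : ℕ) (hM1 : 1 ≤ M) (X : Type) (E : X → X → Prop) (W : X → X → ℤ)
    (hW : ∀ x y, W y x = -W x y)
    (hC : ∀ a b c d, E a b → E b c → E c d → E d a → W a b + W b c + W c d + W d a = 0)
    (I : Type) (f : (I → ZMod M) → X)
    (hf : ∀ x y : I → ZMod M, (∀ i, cyc M (x i) (y i)) → E (f x) (f y))
    (Y Y' : Set I) (hYY : Disjoint Y Y') (S : Set I → ℤ)
    (hS : ∀ Z : Set I, S Z = ∑ k ∈ Finset.range (2 * M),
      W (f (uu M Z k)) (f (uu M Z (k + 1)))) :
    S (Y ∪ Y') = S Y + S Y' := by
  let v : ℕ → ℕ → I → ZMod M := fun j k i =>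
    if i ∈ Y then av M k else if i ∈ Y' then bv M j k else Tt M k
  have hv : ∀ j k, ∀ i, cyc M (v j k i) (v j (k + 1) i) := by
    intro j k i
    simp only [v]
    split_ifs
    · exact cyc_a M k
    · exact cyc_b M hM1 j k
    · exact cyc_T M k
  let SS : ℕ → ℤ := fun j => ∑ k ∈ Finset.range (2 * M + 2 * M), W (f (v j k)) (f (v j (k + 1)))
  have hstep : ∀ j, j < 2 * M → SS j = SS (j + 1) := by
    intro j hj
    refine walk_change E W hW hC (fun k => f (v j k)) (fun k => f (v (j + 1) k))
      (fun k => hf _ _ (hv j k)) (fun k => hf _ _ (fun i => cyc_symm M (hv (j + 1) k i))) ?_ ?_ _ ?_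
    · change f (v j 0) = f (v (j + 1) 0)
      congr 1
    · intro k
      rcases bv_alt M j k with h | h
      · left
        change f (v j k) = f (v (j + 1) k)
        congr 1
        funext i
        simp only [v, h]
      · right
        change f (v j (k + 1)) = f (v (j + 1) (k + 1))
        congr 1
        funext i
        simp only [v, h]
    · change f (v j _) = f (v (j + 1) _)
      congr 1
      funext i
      have hb : bv M j (2 * M + 2 * M) = bv M (j + 1) (2 * M + 2 * M) := by
        unfold bv
        rw [if_neg (by omega), if_neg (by omega), if_neg (by omega)]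
        by_cases h : 2 * M + 2 * M ≤ 2 * M + (j + 1)
        · have e : j + 1 = 2 * M := by omega
          rw [if_pos h]
          have h6 : (2 * M + 2 * M - (j + 1)) % 2 = 0 := by omega
          rw [h6, Nat.add_zero, Cc_add, e]
        · rw [if_neg h]
      simp only [v, hb]
  have hall : ∀ j, j ≤ 2 * M → SS 0 = SS j := by
    intro j
    induction j with
    | zero => intro _; rfl
    | succ j ih =>
      intro hj
      rw [ih (by omega)]
      exact hstep j (by omega)
  have hav : ∀ k, av M (2 * M + k) = Tt M k := by
    intro k
    unfold av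
    by_cases h : 2 * M + k ≤ 2 * M
    · have e : k = 0 := by omega
      subst e
      rw [if_pos h, Cc_add]
      rfl
    · rw [if_neg h, Tt_add]
  have h1 : SS 0 = S Y + S Y' := by
    simp only [SS]
    rw [Finset.sum_range_add, hS, hS]
    congr 1
    · refine Finset.sum_congr rfl fun k hk => ?_
      rw [Finset.mem_range] at hk
      have e : ∀ k, k ≤ 2 * M → v 0 k = uu M Y k := by
        intro k hk
        funext i
        simp only [v]
        split_ifs with h1 h2
        · rw [uu_mem M k h1]
          unfold av
          rw [if_pos hk]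
        · rw [uu_not M k h1]
          unfold bv
          by_cases h : k ≤ 0
          · have e : k = 0 := by omega
            subst e
            rfl
          · rw [if_neg h, if_pos (by omega), Nat.zero_add, Nat.sub_zero]
            rfl
        · rw [uu_not M k h1]
      rw [e k (by omega), e (k + 1) (by omega)]
    · refine Finset.sum_congr rfl fun k hk => ?_
      have e : ∀ k, v 0 (2 * M + k) = uu M Y' k := by
        intro k
        funext i
        simp only [v]
        by_cases h1 : i ∈ Y
        · have h2 : i ∉ Y' := fun h => Set.disjoint_left.1 hYY h1 h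
          rw [if_pos h1, uu_not M k h2, hav]
        · rw [if_neg h1]
          by_cases h2 : i ∈ Y'
          · rw [if_pos h2, uu_mem M k h2]
            unfold bv
            rw [if_neg (by omega)]
            by_cases h : 2 * M + k ≤ 2 * M + 0
            · have e : k = 0 := by omega
              subst e
              rw [if_pos h]
              congr 1
              omega
            · rw [if_neg h, Cc_add]
          · rw [if_neg h2, uu_not M k h2, Tt_add]
      rw [e k, Nat.add_assoc, e (k + 1)]
  have h2 : SS (2 * M) = S (Y ∪ Y') + S ∅ := by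
    simp only [SS]
    rw [Finset.sum_range_add, hS, hS]
    congr 1
    · refine Finset.sum_congr rfl fun k hk => ?_
      rw [Finset.mem_range] at hk
      have e : ∀ k, k ≤ 2 * M →
          v (2 * M) k = uu M (Y ∪ Y') k := by
        intro k hk
        funext i
        simp only [v]
        have ha : av M k = Cc M k := by
          unfold av
          rw [if_pos hk]
        have hb : bv M (2 * M) k = Cc M k := by
          unfold bv
          rw [if_pos hk]
        rw [ha, hb]
        by_cases h1 : i ∈ Y
        · rw [if_pos h1, uu_mem M k (Set.mem_union_left Y' h1)]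
        · by_cases h2 : i ∈ Y'
          · rw [if_neg h1, if_pos h2, uu_mem M k (Set.mem_union_right Y h2)]
          · rw [if_neg h1, if_neg h2, uu_not M k (fun h => h.elim h1 h2)]
      rw [e k (by omega), e (k + 1) (by omega)]
    · refine Finset.sum_congr rfl fun k hk => ?_
      rw [Finset.mem_range] at hk
      have e : ∀ k, k ≤ 2 * M →
          v (2 * M) (2 * M + k) = uu M ∅ k := by
        intro k hk
        funext i
        simp only [v]
        have hb : bv M (2 * M) (2 * M + k) = Tt M k := by
          unfold bv
          by_cases h : 2 * M + k ≤ 2 * M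
          · have e : k = 0 := by omega
            subst e
            rw [if_pos h, Cc_add]
            rfl
          · rw [if_neg h, if_pos (by omega), Cc_add]
            have : 2 * M + k - 2 * M = k := by omega
            rw [this]
            rfl
        rw [hav, hb, Tt_add, uu_not M k (Set.notMem_empty i)]
        split_ifs <;> rfl
      rw [e k (by omega), Nat.add_assoc, e (k + 1) (by omega)]
  have h3 : S ∅ = 0 := by
    rw [hS]
    have e0 : ∀ k, uu M (∅ : Set I) k = fun _ => Tt M k := fun k =>
      funext fun i => uu_not M k (Set.notMem_empty i)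
    simp only [e0]
    have e : ∀ m : ℕ, ∑ k ∈ Finset.range (2 * m),
        W (f (fun _ => Tt M k)) (f (fun _ => Tt M (k + 1))) = 0 := by
      intro m
      induction m with
      | zero => rfl
      | succ m ih =>
        have : 2 * (m + 1) = 2 * m + 1 + 1 := by ring
        rw [this, Finset.sum_range_succ, Finset.sum_range_succ, ih]
        have e1 : Tt M (2 * m + 1 + 1) = Tt M (2 * m) := by
          unfold Tt
          have : (2 * m + 1 + 1) % 2 = 2 * m % 2 := by omega
          rw [this]
        rw [e1, hW (f fun _ => Tt M (2 * m))]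
        ring
    exact e M
  have h4 := hall (2 * M) le_rfl
  rw [h1, h2, h3, add_zero] at h4
  exact h4.symm

theorem pf_AD : T_AD := by
  intro X E W hW hC n I f hf Y Y' hYY
  exact ad_core (2 * n + 1) (by omega) X E W hW hC I f hf Y Y' hYY _ (fun Z => rfl)

end Pool.Agent.H18.SF
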