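import Pool.Agent.H45.SF.GT
import Pool.Agent.H9.SF.Bas

/-!
# AK: natural numbers know themselves
-/

open Ordinal Cardinal Order Set
open scoped ZFSet

namespace Pool.Agent.H18.SF

open _root_.SF

/-- a definable constant knows itself -/
private theorem const_know (hTF : T_TF) (c : V) (hc : Tm ZFm (fun _ _ => c)) (B : V) [IsCBA B]
    (N' N : V) (b : El B) (σ : V → V → El B) (hN : NP N' N) (hm : BMap N' N b σ) (hb : b ≠ ⊥) :
    c ∈ N' ∧ σ c c = b := by
  have hω : (ω : Ordinal.{0}).toZFSet ∈ N' := hN.full.2.1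
  have htot := hm.tot _ hω
  have key : ∀ y : V, σ (ω : Ordinal.{0}).toZFSet y ≠ ⊥ →
      c ∈ N' ∧ σ (ω : Ordinal.{0}).toZFSet y ≤ σ c c := by
    intro y hy
    have h := hTF (fun _ _ => c) hc B N' N b σ hN hm
      {((ω : Ordinal.{0}).toZFSet, y)} (by simpa using hy)
      (fun _ => ((ω : Ordinal.{0}).toZFSet, y)) (fun _ => Finset.mem_singleton_self _)
    simpa using h
  have hex : ∃ y, σ (ω : Ordinal.{0}).toZFSet y ≠ ⊥ := by
    by_contra hcon
    push Not at hcon
    apply hb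
    rw [← htot]
    simp [hcon]
  obtain ⟨y0, hy0⟩ := hex
  have hcN := (key y0 hy0).1
  refine ⟨hcN, le_antisymm ?_ ?_⟩
  · rw [← hm.tot c hcN]
    exact le_iSup (fun y => σ c y) c
  · rw [← htot]
    refine iSup_le fun y => ?_
    by_cases hy : σ (ω : Ordinal.{0}).toZFSet y = ⊥
    · rw [hy]; exact bot_le
    · exact (key y hy).2

theorem pf_AK (hTF : T_TF) : T_AK := by
  intro B _ N' N b σ hN hm hb
  refine ⟨fun n => ?_, ?_⟩
  · exact const_know hTF _ (Tm.nS n) B N' N b σ hN hm hb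
  · exact const_know hTF _ Tm.om B N' N b σ hN hm hb

end Pool.Agent.H18.SF
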