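import Pool.Agent.H58.SF.Targets

/-!
# Existence of frames
-/

namespace Pool.Agent.H18.SF

open Pool.Agent.H68.BP Pool.Agent.H58.SF

variable {σ : Sig} {A : Type} {𝔸 : Str σ A}

theorem IsHom.comp' {g f : A → A} (hg : IsHom 𝔸 𝔸 g) (hf : IsHom 𝔸 𝔸 f) :
    IsHom 𝔸 𝔸 (fun a => g (f a)) := by
  intro l x hx
  exact hg l _ (hf l x hx)

theorem isHom_id' : IsHom 𝔸 𝔸 (fun a => a) := by
  intro l x hx
  exact hx

theorem RigidSet.mono' {F G : Set A} (h : RigidSet 𝔸 G) (hFG : F ⊆ G) : RigidSet 𝔸 F := by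
  intro g hg
  obtain ⟨g', h1, h2⟩ := h g hg
  exact ⟨g', h1, fun c hc => h2 c (hFG hc)⟩

theorem RigidSet.image' {F : Set A} (h : RigidSet 𝔸 F) {g : A → A} (hg : IsHom 𝔸 𝔸 g) :
    RigidSet 𝔸 (g '' F) := by
  intro k hk
  obtain ⟨g2, h1, h2⟩ := h (fun a => k (g a)) (IsHom.comp' hk hg)
  refine ⟨fun a => g (g2 a), IsHom.comp' hg h1, ?_⟩
  rintro c ⟨a, ha, rfl⟩
  change g (g2 (k (g a))) = g a
  rw [h2 a ha]

/-- one step -/
theorem step (hRG : T_RG) (hO : Oligo 𝔸) (F X : Finset A) (hF : RigidSet 𝔸 (F : Set A)) :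
    ∃ e : A → A, IsHom 𝔸 𝔸 e ∧ (∀ c ∈ F, e c = c) ∧
      RigidSet 𝔸 ((F : Set A) ∪ e '' (X : Set A)) := by
  classical
  obtain ⟨e1, h1, h2⟩ := hRG σ A 𝔸 hO (F ∪ X)
  obtain ⟨e2, h3, h4⟩ := hF e1 h1
  refine ⟨fun a => e2 (e1 a), IsHom.comp' h3 h1, h4, ?_⟩
  have h5 := RigidSet.image' h2 h3
  refine RigidSet.mono' h5 ?_
  rintro c (hc | ⟨a, ha, rfl⟩)
  · exact ⟨e1 c, ⟨c, by simp [Finset.mem_coe.1 hc], rfl⟩, h4 c hc⟩
  · exact ⟨e1 a, ⟨a, by simp [Finset.mem_coe.1 ha], rfl⟩, rfl⟩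

theorem pf_BB (hRG : T_RG) : T_BB := by
  intro σ A 𝔸 hA hO
  classical
  obtain ⟨ν, hν⟩ := exists_injective_nat A
  -- the exhaustion
  have hX : ∀ n : ℕ, ∃ X : Finset A, ∀ a, a ∈ X ↔ ν a < n := by
    intro n
    have hfin : {a : A | ν a < n}.Finite :=
      Set.Finite.of_finite_image ((Set.finite_Iio n).subset (by
        rintro m ⟨a, ha, rfl⟩
        exact ha)) hν.injOn
    exact ⟨hfin.toFinset, fun a => by simp⟩
  choose X hX using hX
  have key : ∀ (n : ℕ) (F : {F : Finset A // RigidSet 𝔸 (F : Set A)}),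
      ∃ e : A → A, IsHom 𝔸 𝔸 e ∧ (∀ c ∈ F.1, e c = c) ∧
        RigidSet 𝔸 ((F.1 ∪ (X n).image e : Finset A) : Set A) := by
    intro n F
    obtain ⟨e, h1, h2, h3⟩ := step hRG hO F.1 (X n) F.2
    refine ⟨e, h1, h2, ?_⟩
    rw [Finset.coe_union, Finset.coe_image]
    exact h3
  choose e he1 he2 he3 using key
  have h0 : RigidSet 𝔸 ((∅ : Finset A) : Set A) := by
    intro g _
    exact ⟨fun a => a, isHom_id', fun c hc => by simp at hc⟩
  let Bs : ℕ → {F : Finset A // RigidSet 𝔸 (F : Set A)} := fun n =>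
    Nat.rec ⟨∅, h0⟩ (fun n F => ⟨F.1 ∪ (X n).image (e n F), he3 n F⟩) n
  have hBs : ∀ n, (Bs (n + 1)).1 = (Bs n).1 ∪ (X n).image (e n (Bs n)) := fun n => rfl
  have hmono : Monotone fun n => (Bs n).1 := monotone_nat_of_le_succ (fun n => by
    rw [hBs]
    exact Finset.subset_union_left)
  let B : Set A := {a | ∃ n, a ∈ (Bs n).1}
  have hfinB : ∀ F : Finset A, (F : Set A) ⊆ B → ∃ n, F ⊆ (Bs n).1 := by
    intro F
    induction F using Finset.induction_on with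
    | empty => intro _; exact ⟨0, Finset.empty_subset _⟩
    | insert a F ha ih =>
      intro h
      rw [Finset.coe_insert, Set.insert_subset_iff] at h
      obtain ⟨n, hn⟩ := ih h.2
      obtain ⟨m, hm⟩ := h.1
      refine ⟨max m n, ?_⟩
      intro c hc
      rcases Finset.mem_insert.1 hc with rfl | hc
      · exact hmono (le_max_left m n) hm
      · exact hmono (le_max_right m n) (hn hc)
  refine ⟨B, ⟨?_, ?_⟩⟩
  · intro F hF
    obtain ⟨n, hn⟩ := hfinB F hF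
    exact RigidSet.mono' (Bs n).2 (by exact_mod_cast hn)
  · intro F Y hF
    obtain ⟨m, hm⟩ := hfinB F hF
    obtain ⟨n0, hn0⟩ : ∃ n0, ∀ a ∈ Y, ν a < n0 := by
      refine ⟨Y.sup ν + 1, fun a ha => ?_⟩
      exact Nat.lt_succ_of_le (Finset.le_sup (f := ν) ha)
    let n := max m n0
    refine ⟨e n (Bs n), he1 n _, fun c hc => ?_, fun c hc => ?_⟩
    · exact he2 n (Bs n) c (hmono (le_max_left m n0) (hm hc))
    · refine ⟨n + 1, ?_⟩
      rw [hBs, Finset.mem_union]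
      right
      rw [Finset.mem_image]
      exact ⟨c, (hX n c).2 (lt_of_lt_of_le (hn0 c hc) (le_max_right m n0)), rfl⟩

end Pool.Agent.H18.SF
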