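import Pool.Agent.H58.SF.Targets
import Pool.Agent.H18.SF.BB

/-!
# Rigid images
-/

namespace Pool.Agent.H18.SF

open Pool.Agent.H68.BP Pool.Agent.H58.SF

variable {σ : Sig} {A : Type} {𝔸 : Str σ A}

theorem isHom_aut {g : A ≃ A} (h : IsAut 𝔸 g) : IsHom 𝔸 𝔸 g := fun l x hx => (h l x).1 hx

theorem isAut_symm {g : A ≃ A} (h : IsAut 𝔸 g) : IsAut 𝔸 g.symm := by
  intro l x
  rw [h l (fun i => g.symm (x i))]
  simp

theorem pf_RG : T_RG := by
  intro σ A 𝔸 hO X
  classical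
  obtain ⟨R, hR⟩ := hO X.card
  let x : Fin X.card → A := fun i => (X.equivFin.symm i : A)
  have hx : Set.range x = (X : Set A) := by
    ext a
    constructor
    · rintro ⟨i, rfl⟩
      exact (X.equivFin.symm i).2
    · intro ha
      exact ⟨X.equivFin ⟨a, ha⟩, by simp [x]⟩
  let reach : (Fin X.card → A) → Finset (Fin X.card → A) := fun y =>
    R.filter fun z => ∃ g, IsHom 𝔸 𝔸 g ∧ ∀ i, g (y i) = z i
  let C : Finset (Fin X.card → A) := R.filter fun y => ∃ e, IsHom 𝔸 𝔸 e ∧ ∀ i, e (x i) = y i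
  have hC : C.Nonempty := by
    obtain ⟨y, hy, g, hg, hgy⟩ := hR x
    refine ⟨y, Finset.mem_filter.2 ⟨hy, g.symm, isHom_aut (isAut_symm hg), fun i => ?_⟩⟩
    rw [← hgy i]
    simp
  obtain ⟨y, hy, hmin⟩ := C.exists_min_image (fun y => (reach y).card) hC
  obtain ⟨hyR, e, he, hey⟩ := Finset.mem_filter.1 hy
  refine ⟨e, he, ?_⟩
  intro g hg
  obtain ⟨z, hz, α, hα, hαz⟩ := hR (fun i => g (y i))
  -- the endomorphism `α⁻¹ g` maps `y` to `z`
  have h1 : IsHom 𝔸 𝔸 (fun a => α.symm (g a)) := IsHom.comp' (isHom_aut (isAut_symm hα)) hg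
  have h2 : ∀ i, α.symm (g (y i)) = z i := by
    intro i
    rw [← hαz i]
    simp
  have hzC : z ∈ C := by
    refine Finset.mem_filter.2 ⟨hz, fun a => α.symm (g (e a)),
      IsHom.comp' (g := fun a => α.symm (g a)) h1 he, fun i => ?_⟩
    change α.symm (g (e (x i))) = z i
    rw [hey, h2]
  have hsub : reach z ⊆ reach y := by
    intro w hw
    obtain ⟨hwR, k, hk, hkw⟩ := Finset.mem_filter.1 hw
    refine Finset.mem_filter.2 ⟨hwR, fun a => k (α.symm (g a)), IsHom.comp' hk h1, fun i => ?_⟩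
    change k (α.symm (g (y i))) = w i
    rw [h2, hkw]
  have heq : reach z = reach y := Finset.eq_of_subset_of_card_le hsub (hmin z hzC)
  have hyy : y ∈ reach y := Finset.mem_filter.2 ⟨hyR, fun a => a, isHom_id', fun i => rfl⟩
  rw [← heq] at hyy
  obtain ⟨-, k, hk, hky⟩ := Finset.mem_filter.1 hyy
  refine ⟨fun a => k (α.symm a), IsHom.comp' hk (isHom_aut (isAut_symm hα)), ?_⟩
  rintro c ⟨a, ha, rfl⟩
  rw [← hx] at ha
  obtain ⟨i, rfl⟩ := ha
  rw [hey]
  change k (α.symm (g (y i))) = y i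
  rw [h2, hky]

end Pool.Agent.H18.SF
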