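import Pool.Agent.H58.SF.Targets
import Pool.Agent.H18.SF.RG

/-!
# Compactness and stabilisation
-/

namespace Pool.Agent.H18.SF

open Pool.Agent.H68.BP Pool.Agent.H58.SF

variable {σ : Sig} {A : Type} {𝔸 : Str σ A}

theorem PartPoly.mono' {J : Type} {F G : Finset A} {h : (J → A) → A} (hFG : F ⊆ G)
    (hp : PartPoly 𝔸 G h) : PartPoly 𝔸 F h := by
  intro l x hx hx'
  exact hp l x (fun j k => hFG (hx j k)) hx'

theorem PartPoly.aut' {J : Type} {F : Finset A} {h : (J → A) → A} {g : A ≃ A}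
    (hg : IsAut 𝔸 g) (hp : PartPoly 𝔸 F h) : PartPoly 𝔸 F (fun x => g (h x)) := by
  intro l x hx hx'
  exact (hg l _).1 (hp l x hx hx')

theorem oligo_fin (hO : Oligo 𝔸) (K : Type) [Finite K] :
    ∃ R : Finset (K → A), ∀ x : K → A, ∃ y ∈ R, ∃ g : A ≃ A, IsAut 𝔸 g ∧ ∀ i, g (y i) = x i := by
  classical
  obtain ⟨n, ⟨e⟩⟩ := Finite.exists_equiv_fin K
  obtain ⟨R, hR⟩ := hO n
  refine ⟨R.image fun y k => y (e k), fun x => ?_⟩
  obtain ⟨y, hy, g, hg, hgy⟩ := hR (fun i => x (e.symm i))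
  refine ⟨fun k => y (e k), Finset.mem_image_of_mem _ hy, g, hg, fun k => ?_⟩
  rw [hgy]
  simp

/-- `H` is on `F` the restriction of partial polymorphisms of arbitrarily large levels -/
def Good (𝔸 : Str σ A) {J : Type} (F : Finset A) (H : (J → A) → A) : Prop :=
  ∀ F' : Finset A, F ⊆ F' → ∃ h : (J → A) → A, PartPoly 𝔸 F' h ∧
    ∀ x, (∀ j, x j ∈ F) → h x = H x

theorem core (hO : Oligo 𝔸) (J : Type) [Finite J] (F : Finset A) :
    ∃ F₁ : Finset A, F ⊆ F₁ ∧ ∀ h : (J → A) → A, PartPoly 𝔸 F₁ h → Good 𝔸 F h := by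
  classical
  obtain ⟨R, hR⟩ := oligo_fin hO (J → F)
  have hb : ∀ u : (J → F) → A, ∃ b : Finset A,
      (∀ F' : Finset A, F ⊆ F' → ∃ h : (J → A) → A, PartPoly 𝔸 F' h ∧
        ∀ x : J → F, h (fun j => (x j : A)) = u x) ∨
      ¬ ∃ h : (J → A) → A, PartPoly 𝔸 b h ∧ ∀ x : J → F, h (fun j => (x j : A)) = u x := by
    intro u
    by_cases h : ∀ F' : Finset A, F ⊆ F' → ∃ h : (J → A) → A, PartPoly 𝔸 F' h ∧
        ∀ x : J → F, h (fun j => (x j : A)) = u x
    · exact ⟨∅, Or.inl h⟩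
    · push Not at h
      obtain ⟨F', -, h2⟩ := h
      refine ⟨F', Or.inr ?_⟩
      rintro ⟨k, hk, hk'⟩
      obtain ⟨x, hx⟩ := h2 k hk
      exact hx (hk' x)
  choose b hb using hb
  refine ⟨F ∪ R.biUnion b, Finset.subset_union_left, ?_⟩
  intro h hh
  obtain ⟨u, hu, g, hg, hgu⟩ := hR (fun x => h (fun j => (x j : A)))
  have hsub : b u ⊆ F ∪ R.biUnion b :=
    (Finset.subset_biUnion_of_mem b hu).trans Finset.subset_union_right
  have hgood : ∀ F' : Finset A, F ⊆ F' → ∃ h : (J → A) → A, PartPoly 𝔸 F' h ∧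
        ∀ x : J → F, h (fun j => (x j : A)) = u x := by
    rcases hb u with h1 | h1
    · exact h1
    · exfalso
      apply h1
      refine ⟨fun x => g.symm (h x), PartPoly.aut' (isAut_symm hg) (PartPoly.mono' hsub hh), ?_⟩
      intro x
      change g.symm (h (fun j => (x j : A))) = u x
      rw [← hgu x]
      simp
  intro F' hF'
  obtain ⟨k, hk, hk'⟩ := hgood F' hF'
  refine ⟨fun x => g (k x), PartPoly.aut' hg hk, fun x hx => ?_⟩
  have h1 := hk' (fun j => ⟨x j, hx j⟩)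
  have h2 := hgu (fun j => ⟨x j, hx j⟩)
  change g (k x) = h x
  change k x = _ at h1
  change g _ = h x at h2
  rw [h1, h2]

theorem good_ext (hO : Oligo 𝔸) (J : Type) [Finite J] (F G : Finset A) (hFG : F ⊆ G)
    (H : (J → A) → A) (hH : Good 𝔸 F H) :
    ∃ H' : (J → A) → A, Good 𝔸 G H' ∧ ∀ x, (∀ j, x j ∈ F) → H' x = H x := by
  obtain ⟨F₁, h1, h2⟩ := core hO J G
  obtain ⟨h, h3, h4⟩ := hH F₁ (hFG.trans h1)
  exact ⟨h, h2 h h3, h4⟩

theorem pf_CP : T_CP := by
  intro σ A 𝔸 hA hO J _ F δ hδ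
  classical
  obtain ⟨ν, hν⟩ := exists_injective_nat A
  have hX : ∀ n : ℕ, ∃ X : Finset A, ∀ a, a ∈ X ↔ ν a < n := by
    intro n
    have hfin : {a : A | ν a < n}.Finite :=
      Set.Finite.of_finite_image ((Set.finite_Iio n).subset (by
        rintro m ⟨a, ha, rfl⟩
        exact ha)) hν.injOn
    exact ⟨hfin.toFinset, fun a => by simp⟩
  choose X hX using hX
  let G : ℕ → Finset A := fun n => F ∪ X n
  have hX0 : X 0 = ∅ := by
    ext a
    rw [hX]
    simp
  have hG : ∀ m n, m ≤ n → G m ⊆ G n := by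
    intro m n hmn
    apply Finset.union_subset_union_right
    intro a ha
    rw [hX] at ha ⊢
    omega
  have hδ0 : Good 𝔸 (G 0) δ := by
    have e : G 0 = F := by
      change F ∪ X 0 = F
      rw [hX0, Finset.union_empty]
    rw [e]
    exact hδ
  have key : ∀ (m : ℕ) (H : {H : (J → A) → A // Good 𝔸 (G m) H}),
      ∃ H' : {H' : (J → A) → A // Good 𝔸 (G (m + 1)) H'},
        ∀ x, (∀ j, x j ∈ G m) → H'.1 x = H.1 x := by
    intro m H
    obtain ⟨H', h1, h2⟩ := good_ext hO J (G m) (G (m + 1)) (hG m (m + 1) (by omega)) H.1 H.2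
    exact ⟨⟨H', h1⟩, h2⟩
  choose nx hnx using key
  let S : (m : ℕ) → {H : (J → A) → A // Good 𝔸 (G m) H} := fun m =>
    Nat.rec (motive := fun m => {H : (J → A) → A // Good 𝔸 (G m) H}) ⟨δ, hδ0⟩ nx m
  have hS : ∀ m x, (∀ j, x j ∈ G m) → (S (m + 1)).1 x = (S m).1 x := fun m x hx => hnx m (S m) x hx
  have hS' : ∀ m n, m ≤ n → ∀ x, (∀ j, x j ∈ G m) → (S n).1 x = (S m).1 x := by
    intro m n hmn x hx
    induction n, hmn using Nat.le_induction with
    | base => rfl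
    | succ n hn ih => rw [hS n x (fun j => hG m n hn (hx j)), ih]
  have hfind : ∀ x : J → A, ∃ m, ∀ j, x j ∈ G m := by
    intro x
    have := Fintype.ofFinite J
    refine ⟨Finset.univ.sup (fun j => ν (x j)) + 1, fun j => ?_⟩
    apply Finset.mem_union_right
    rw [hX]
    exact Nat.lt_succ_of_le (Finset.le_sup (f := fun j => ν (x j)) (Finset.mem_univ j))
  choose μ hμ using hfind
  have hh : ∀ m x, (∀ j, x j ∈ G m) → (S (μ x)).1 x = (S m).1 x := by
    intro m x hx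
    rcases le_total m (μ x) with h | h
    · exact hS' m _ h x hx
    · exact (hS' _ m h x (hμ x)).symm
  refine ⟨fun x => (S (μ x)).1 x, ?_, ?_⟩
  · intro l x hx
    have hm : ∃ m, ∀ j k, x j k ∈ G m := by
      have := Fintype.ofFinite J
      refine ⟨Finset.univ.sup (fun p : J × Fin (σ.ar l) => ν (x p.1 p.2)) + 1, fun j k => ?_⟩
      apply Finset.mem_union_right
      rw [hX]
      exact Nat.lt_succ_of_le (Finset.le_sup (f := fun p : J × Fin (σ.ar l) => ν (x p.1 p.2))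
        (Finset.mem_univ (j, k)))
    obtain ⟨m, hm⟩ := hm
    obtain ⟨h, h1, h2⟩ := (S m).2 (G m) (Finset.Subset.refl _)
    have h3 := h1 l x hm hx
    have e : (fun k => (S (μ fun i => x i k)).1 (fun i => x i k)) =
        fun k => h (fun i => x i k) := by
      funext k
      rw [hh m _ (fun j => hm j k), h2 _ (fun j => hm j k)]
    change 𝔸 l (fun k => (S (μ fun i => x i k)).1 (fun i => x i k))
    rw [e]
    exact h3
  · intro x hx
    have h1 : ∀ j, x j ∈ G 0 := fun j => Finset.mem_union_left _ (hx j)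
    exact hh 0 x h1

theorem pf_ST (hCP : T_CP) : T_ST := by
  intro σ A 𝔸 hA hO J _ F
  obtain ⟨F₁, h1, h2⟩ := core hO J F
  refine ⟨F₁, h1, fun h hh => ?_⟩
  obtain ⟨h', h3, h4⟩ := hCP σ A 𝔸 hA hO J F h (h2 h hh)
  exact ⟨h', h3, h4⟩

end Pool.Agent.H18.SF
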