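import Pool.Agent.H58.SF.Targets
import Pool.Agent.H18.SF.AD

/-!
# Odd potentials give bounded selections for odd cycles
-/

namespace Pool.Agent.H18.SF

open Pool.Agent.H68.BP Pool.Agent.H58.SF

/-- the value of the walk belonging to `Z` -/
noncomputable def Sv (M : ℕ) {X I : Type} (W : X → X → ℤ) (f : (I → ZMod M) → X) (Z : Set I) : ℤ :=
  ∑ k ∈ Finset.range (2 * M), W (f (uu M Z k)) (f (uu M Z (k + 1)))

/-- `f` maps the power of the cycle to the relation -/
def Hm (M : ℕ) {X I : Type} (E : X → X → Prop) (f : (I → ZMod M) → X) : Prop :=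
  ∀ x y : I → ZMod M, (∀ i, cyc M (x i) (y i)) → E (f x) (f y)

theorem Hm_of_isPoly {M : ℕ} {X I : Type} {E : X → X → Prop} {f : (I → ZMod M) → X}
    (h : IsPoly (graph (cyc M)) (graph E) f) : Hm M E f := by
  intro x y hxy
  have h1 := h (0 : Fin 1) (fun i => ![x i, y i]) (fun i => by
    change cyc M (x i) (y i)
    exact hxy i)
  exact h1

theorem Hm_minor {M : ℕ} {X I J : Type} {E : X → X → Prop} {f : (I → ZMod M) → X} (π : I → J)
    (h : Hm M E f) : Hm M E (minor π f) := fun _ _ hxy => h _ _ (fun i => hxy (π i))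

theorem Sv_minor (M : ℕ) {X I J : Type} (W : X → X → ℤ) (f : (I → ZMod M) → X) (π : I → J)
    (Z : Set J) : Sv M W (minor π f) Z = Sv M W f (π ⁻¹' Z) := by
  unfold Sv
  refine Finset.sum_congr rfl fun k _ => ?_
  have e : ∀ k, minor π f (uu M Z k) = f (uu M (π ⁻¹' Z) k) := fun k => rfl
  rw [e, e]

theorem Sv_sum {M : ℕ} (hM : 1 ≤ M) {X I : Type} [Finite I] {E : X → X → Prop} {W : X → X → ℤ}
    (hW : ∀ x y, W y x = -W x y)
    (hC : ∀ a b c d, E a b → E b c → E c d → E d a → W a b + W b c + W c d + W d a = 0)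
    {f : (I → ZMod M) → X} (hf : Hm M E f) (Y : Finset I) :
    Sv M W f (Y : Set I) = ∑ i ∈ Y, Sv M W f {i} := by
  classical
  have hadd : ∀ Y Y' : Set I, Disjoint Y Y' → Sv M W f (Y ∪ Y') = Sv M W f Y + Sv M W f Y' :=
    fun Y Y' h => ad_core M hM X E W hW hC I f hf Y Y' h (Sv M W f) (fun Z => rfl)
  induction Y using Finset.induction_on with
  | empty =>
    have h := hadd ∅ ∅ (Set.disjoint_empty ∅)
    rw [Set.union_empty] at h
    rw [Finset.coe_empty, Finset.sum_empty]
    linarith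
  | insert a Y ha ih =>
    rw [Finset.coe_insert, Set.insert_eq, hadd _ _ (Set.disjoint_singleton_left.2 (by simpa using ha)),
      ih, Finset.sum_insert ha]

theorem Sv_bound {M B : ℕ} {X I : Type} {W : X → X → ℤ} (hB : ∀ x y, |W x y| ≤ B)
    (f : (I → ZMod M) → X) (Z : Set I) : |Sv M W f Z| ≤ 2 * M * B := by
  unfold Sv
  refine (Finset.abs_sum_le_sum_abs _ _).trans ?_
  refine (Finset.sum_le_card_nsmul _ _ (B : ℤ) fun k _ => hB _ _).trans ?_
  rw [Finset.card_range, nsmul_eq_mul]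
  push_cast
  exact le_rfl

theorem odd_sum (m : ℕ) (g : ℕ → ℤ) (hg : ∀ k, Odd (g k)) :
    Odd (∑ k ∈ Finset.range (2 * m + 1), g k) := by
  induction m with
  | zero => simpa using hg 0
  | succ m ih =>
    have e : 2 * (m + 1) + 1 = 2 * m + 1 + 1 + 1 := by ring
    rw [e, Finset.sum_range_succ, Finset.sum_range_succ]
    have h1 := (ih.add_odd (hg (2 * m + 1)))
    exact h1.add_odd (hg (2 * m + 1 + 1))

theorem Sv_univ {n : ℕ} {X I : Type} {E : X → X → Prop} {W : X → X → ℤ}
    (hO : ∀ x y, E x y → Odd (W x y)) {f : (I → ZMod (2 * n + 1)) → X}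
    (hf : Hm (2 * n + 1) E f) : Sv (2 * n + 1) W f Set.univ ≠ 0 := by
  have e0 : ∀ k, uu (2 * n + 1) (Set.univ : Set I) k = fun _ => Cc (2 * n + 1) k := fun k =>
    funext fun i => uu_mem (2 * n + 1) k (Set.mem_univ i)
  unfold Sv
  simp only [e0]
  have e1 : 2 * (2 * n + 1) = (2 * n + 1) + (2 * n + 1) := by ring
  rw [e1, Finset.sum_range_add]
  have e2 : ∀ k, Cc (2 * n + 1) (2 * n + 1 + k) = Cc (2 * n + 1) k := by
    intro k
    unfold Cc
    rw [Nat.cast_add (2 * n + 1) k, ZMod.natCast_self, zero_add]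
  have e3 : ∑ k ∈ Finset.range (2 * n + 1),
      W (f fun _ => Cc (2 * n + 1) (2 * n + 1 + k)) (f fun _ => Cc (2 * n + 1) (2 * n + 1 + k + 1)) =
      ∑ k ∈ Finset.range (2 * n + 1),
      W (f fun _ => Cc (2 * n + 1) k) (f fun _ => Cc (2 * n + 1) (k + 1)) := by
    refine Finset.sum_congr rfl fun k _ => ?_
    rw [Nat.add_assoc (2 * n + 1) k 1, e2, e2]
  rw [e3]
  have h1 := odd_sum n (fun k => W (f fun _ => Cc (2 * n + 1) k) (f fun _ => Cc (2 * n + 1) (k + 1)))
    (fun k => hO _ _ (hf _ _ (fun _ => cyc_C (2 * n + 1) k)))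
  obtain ⟨c, hc⟩ := h1
  rw [hc]
  omega

theorem pf_OP (_hAD : T_AD) : T_OP := by
  intro X E n hE
  obtain ⟨W, B, hW, hB, hO, hC⟩ := hE
  classical
  set M := 2 * n + 1 with hM
  have hM1 : 1 ≤ M := by omega
  refine ⟨1, 2 * (2 * M * B), fun _ _ => 0, fun I f => {i | Sv M W f {i} ≠ 0}, ?_, ?_⟩
  · intro I _ _ f hf
    have hf' := Hm_of_isPoly hf
    have := Fintype.ofFinite I
    let P : Finset I := Finset.univ.filter fun i => 0 < Sv M W f {i}
    let Q : Finset I := Finset.univ.filter fun i => Sv M W f {i} < 0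
    have hP : (P.card : ℤ) ≤ 2 * M * B := by
      have h1 := Sv_sum hM1 hW hC hf' P
      have h2 : (P.card : ℤ) ≤ ∑ i ∈ P, Sv M W f {i} := by
        have h3 := Finset.card_nsmul_le_sum P (fun i => Sv M W f {i}) 1 (fun i hi => by
          have := (Finset.mem_filter.1 hi).2
          omega)
        simpa using h3
      rw [← h1] at h2
      exact h2.trans ((le_abs_self _).trans (Sv_bound hB f _))
    have hQ : (Q.card : ℤ) ≤ 2 * M * B := by
      have h1 := Sv_sum hM1 hW hC hf' Q
      have h2 : (Q.card : ℤ) ≤ -∑ i ∈ Q, Sv M W f {i} := by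
        rw [← Finset.sum_neg_distrib]
        have h3 := Finset.card_nsmul_le_sum Q (fun i => -Sv M W f {i}) 1 (fun i hi => by
          have := (Finset.mem_filter.1 hi).2
          omega)
        simpa using h3
      rw [← h1] at h2
      exact h2.trans ((neg_le_abs _).trans (Sv_bound hB f _))
    have hsub : {i | Sv M W f {i} ≠ 0} ⊆ ((P ∪ Q : Finset I) : Set I) := by
      intro i hi
      rw [Finset.mem_coe, Finset.mem_union]
      rcases lt_or_gt_of_ne (show Sv M W f {i} ≠ 0 from hi) with h | h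
      · right
        exact Finset.mem_filter.2 ⟨Finset.mem_univ i, h⟩
      · left
        exact Finset.mem_filter.2 ⟨Finset.mem_univ i, h⟩
    have h1 : ({i | Sv M W f {i} ≠ 0} : Set I).ncard ≤ (P ∪ Q).card := by
      have := Set.ncard_le_ncard hsub (Finset.finite_toSet _)
      rwa [Set.ncard_coe_finset] at this
    have h2 : (P ∪ Q).card ≤ P.card + Q.card := Finset.card_union_le P Q
    have h3 : (P.card : ℤ) + Q.card ≤ 2 * (2 * M * B) := by linarith
    have h4 : P.card + Q.card ≤ 2 * (2 * M * B) := by exact_mod_cast h3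
    exact h1.trans (h2.trans h4)
  · intro I J _ _ _ π f hf _
    have hf' := Hm_of_isPoly hf
    have hg' := Hm_minor π hf'
    have := Fintype.ofFinite I
    have := Fintype.ofFinite J
    -- a coordinate of the minor
    have h1 : ∃ j, Sv M W (minor π f) {j} ≠ 0 := by
      by_contra hcon
      push Not at hcon
      have h2 := Sv_sum hM1 hW hC hg' (Finset.univ : Finset J)
      rw [Finset.sum_eq_zero (fun j _ => hcon j), Finset.coe_univ] at h2
      exact Sv_univ hO hg' h2
    obtain ⟨j, hj⟩ := h1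
    have h3 : ∃ i, π i = j ∧ Sv M W f {i} ≠ 0 := by
      by_contra hcon
      push Not at hcon
      apply hj
      rw [Sv_minor]
      have e : π ⁻¹' {j} = ((Finset.univ.filter fun i => π i = j : Finset I) : Set I) := by
        ext i
        simp
      rw [e, Sv_sum hM1 hW hC hf']
      exact Finset.sum_eq_zero fun i hi => hcon i (Finset.mem_filter.1 hi).2
    obtain ⟨i, hi, hi'⟩ := h3
    exact ⟨j, ⟨i, hi', hi⟩, hj⟩

end Pool.Agent.H18.SF
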