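import Pool.Agent.H58.SF.Targets

/-!
# Structures of the scope have finitely many orbits on tuples
-/

namespace Pool.Agent.H18.SF

open Pool.Agent.H68.BP Pool.Agent.H58.SF

variable {σ τ : Sig} {A : Type}

theorem isAut_reduct {𝔸 : Str σ A} {𝔹 : Str τ A} (h : IsReduct 𝔸 𝔹) {g : A ≃ A}
    (hg : IsAut 𝔹 g) : IsAut 𝔸 g := by
  obtain ⟨ι, -, h1⟩ := h
  intro l x
  obtain ⟨h2, h3⟩ := h1 l
  rw [h3, h3]
  exact hg (ι l) _

/-- the type of a tuple -/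
def ty (𝔹 : Str τ A) {n : ℕ} (x : Fin n → A) :
    (Fin n → Fin n → Prop) × ((l : Fin τ.m) → (Fin (τ.ar l) → Fin n) → Prop) :=
  (fun i j => x i = x j, fun l t => 𝔹 l (fun k => x (t k)))

theorem exists_aut_of_ty {𝔹 : Str τ A} (hB : Homogeneous 𝔹) {n : ℕ} (x y : Fin n → A)
    (h : ty 𝔹 x = ty 𝔹 y) : ∃ g : A ≃ A, IsAut 𝔹 g ∧ ∀ i, g (y i) = x i := by
  classical
  have h1 : ∀ i j, x i = x j ↔ y i = y j := fun i j =>
    iff_of_eq (congrFun (congrFun (congrArg Prod.fst h) i) j)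
  have h2 : ∀ l (t : Fin (τ.ar l) → Fin n), 𝔹 l (fun k => x (t k)) ↔ 𝔹 l (fun k => y (t k)) := fun l t =>
    iff_of_eq (congrFun (congrFun (congrArg Prod.snd h) l) t)
  let F : Finset A := Finset.univ.image y
  have hF : ∀ c : F, ∃ i, y i = c := fun c => by
    obtain ⟨i, -, hi⟩ := Finset.mem_image.1 c.2
    exact ⟨i, hi⟩
  choose r hr using hF
  have hemb : IsEmb (fun l (u : Fin (τ.ar l) → F) => 𝔹 l (fun i => (u i : A))) 𝔹
      (fun c => x (r c)) := by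
    refine ⟨?_, ?_⟩
    · intro c d hcd
      have h3 := (h1 _ _).1 hcd
      rw [hr, hr] at h3
      exact Subtype.ext h3
    · intro l u
      have h3 := h2 l (fun k => r (u k))
      have e : (fun k => y (r (u k))) = fun k => ((u k : F) : A) := funext fun k => hr (u k)
      rw [e] at h3
      exact h3.symm
  obtain ⟨g, hg, hg'⟩ := hB F _ hemb
  refine ⟨g, hg, fun i => ?_⟩
  have hi : y i ∈ F := Finset.mem_image_of_mem y (Finset.mem_univ i)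
  have h3 := hg' ⟨y i, hi⟩
  rw [h3]
  exact (h1 _ _).2 (hr ⟨y i, hi⟩)

theorem pf_OR : T_OR := by
  intro σ A 𝔸 hA
  obtain ⟨-, -, τ, 𝔹, hB, -, hR⟩ := hA
  intro n
  classical
  have hfin : (Set.range (ty 𝔹 (n := n))).Finite := Set.toFinite _
  have hch : ∀ p : (Fin n → Fin n → Prop) × ((l : Fin τ.m) → (Fin (τ.ar l) → Fin n) → Prop),
      ∃ y : Option (Fin n → A), ∀ x : Fin n → A, ty 𝔹 x = p → ∃ z, y = some z ∧ ty 𝔹 z = p := by
    intro p
    by_cases h : ∃ x : Fin n → A, ty 𝔹 x = p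
    · obtain ⟨x, hx⟩ := h
      exact ⟨some x, fun _ _ => ⟨x, rfl, hx⟩⟩
    · exact ⟨none, fun x hx => absurd ⟨x, hx⟩ h⟩
  choose y hy using hch
  refine ⟨(hfin.toFinset.image y).eraseNone, fun x => ?_⟩
  obtain ⟨z, hz, hz'⟩ := hy (ty 𝔹 x) x rfl
  refine ⟨z, ?_, ?_⟩
  · rw [Finset.mem_eraseNone, Finset.mem_image]
    refine ⟨ty 𝔹 x, ?_, hz⟩
    rw [Set.Finite.mem_toFinset]
    exact ⟨x, rfl⟩
  · obtain ⟨g, hg, hg'⟩ := exists_aut_of_ty hB x z hz'.symm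
    exact ⟨g, isAut_reduct hR hg, hg'⟩

end Pool.Agent.H18.SF
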